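import Pool.Agent.Lib.P4f18df.Sqf
import Pool.Agent.Lib.MCP.Sqc

/-!
# Module ConS: squarefree values at random shifts, concentration on average

PROOF. `c2 = 6/π²`, `q_n = (1/H) ∑_{h ≤ H} μ(n+h)²`. For fixed `n`: `∑_{h ∈ [1,H]^D} (∑_i (μ(n+h_i)² - q_n))² = H^D D q_n (1 - q_n) ≤ D H^D` (expand the square: for `i ≠ j` the sum over `h_i`, `h_j` of the product is 0, because `∑_{h ≤ H} (μ(n+h)² - q_n) = 0`; for `i = j` each term is at most 1). By Cauchy-Schwarz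
`∑_h |∑_i (μ(n+h_i)² - q_n)| ≤ H^D √D`. So the sum is at most `H^D (x √D + D ∑_{n ≤ x} |q_n - c2|)`. As in module MB.ConB / MCP.Sqc: `μ(N)² = ∑_{d ≤ z, d² ∣ N} μ(d) + Err(N)`, `|Err(N)| ≤ #{d > z : d² ∣ N}`; `(1/H) ∑_{h ≤ H} [d² ∣ n+h] = 1/d² + O(1/H)`
(`P4f18df.card_dvd_Ioc_abs`), so `|q_n - c2| ≤ 2/(z+1) + z/H + (1/H) ∑_{h ≤ H} #{d > z : d² ∣ n+h}` (`P4f18df.moebius_sq_tail`), and `∑_{n ≤ x} (1/H) ∑_{h ≤ H} #{d > z : d² ∣ n + h} ≤ ∑_{z < d ≤ √(2x)} (x/d² + 1) ≤ x/z + √(2x)`.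
-/

set_option autoImplicit false

open Finset Filter

namespace Pool.Agent.MS

open Pool.Agent.P4f18df

namespace ConSAux

lemma pair_zero {D H : ℕ} (b : ℕ → ℝ) (hb : ∑ k ∈ Icc 1 H, b k = 0) (i j : Fin D) (hij : i ≠ j) :
    ∑ h ∈ Fintype.piFinset (fun _ : Fin D => Icc 1 H), b (h i) * b (h j) = 0 := by
  have h1 := Finset.prod_univ_sum (fun _ : Fin D => Icc 1 H)
    (fun x k => (if x = i then b k else 1) * (if x = j then b k else 1))
  have h2 : ∏ x : Fin D, ∑ k ∈ Icc 1 H,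
      ((if x = i then b k else 1) * (if x = j then b k else 1)) = 0 := by
    apply Finset.prod_eq_zero (Finset.mem_univ i)
    simp only [if_true, if_neg hij, mul_one]
    exact hb
  rw [h2] at h1
  rw [h1]
  apply Finset.sum_congr rfl
  intro h _
  rw [Finset.prod_mul_distrib, Finset.prod_ite_eq', Finset.prod_ite_eq']
  simp

lemma var (D H : ℕ) (b : ℕ → ℝ) (hb : ∑ k ∈ Icc 1 H, b k = 0) (h1 : ∀ k, |b k| ≤ 1) :
    ∑ h ∈ Fintype.piFinset (fun _ : Fin D => Icc 1 H), (∑ i : Fin D, b (h i)) ^ 2 ≤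
      (D : ℝ) * (H : ℝ) ^ D := by
  have e : ∀ h : Fin D → ℕ, (∑ i : Fin D, b (h i)) ^ 2 =
      ∑ i : Fin D, ∑ j : Fin D, b (h i) * b (h j) := by
    intro h
    rw [sq, Finset.sum_mul_sum]
  rw [Finset.sum_congr rfl (fun h _ => e h), Finset.sum_comm]
  have h2 : ∀ i : Fin D, ∑ h ∈ Fintype.piFinset (fun _ : Fin D => Icc 1 H),
      ∑ j : Fin D, b (h i) * b (h j) ≤ (H : ℝ) ^ D := by
    intro i
    rw [Finset.sum_comm, Finset.sum_eq_single i]
    · calc ∑ h ∈ Fintype.piFinset (fun _ : Fin D => Icc 1 H), b (h i) * b (h i)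
          ≤ ∑ h ∈ Fintype.piFinset (fun _ : Fin D => Icc 1 H), (1 : ℝ) := by
            apply Finset.sum_le_sum
            intro h _
            have := h1 (h i)
            rw [abs_le] at this
            nlinarith
        _ = (H : ℝ) ^ D := by
            rw [Finset.sum_const, Fintype.card_piFinset_const, Nat.card_Icc, nsmul_eq_mul, mul_one]
            simp
    · intro j _ hj
      exact pair_zero b hb i j (Ne.symm hj)
    · intro h
      exact absurd (Finset.mem_univ i) h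
  calc _ ≤ ∑ _i : Fin D, (H : ℝ) ^ D := Finset.sum_le_sum (fun i _ => h2 i)
    _ = _ := by simp

lemma cs (D H : ℕ) (b : ℕ → ℝ) (hb : ∑ k ∈ Icc 1 H, b k = 0) (h1 : ∀ k, |b k| ≤ 1) :
    ∑ h ∈ Fintype.piFinset (fun _ : Fin D => Icc 1 H), |∑ i : Fin D, b (h i)| ≤
      (H : ℝ) ^ D * Real.sqrt D := by
  have h2 := sq_sum_le_card_mul_sum_sq (s := Fintype.piFinset (fun _ : Fin D => Icc 1 H))
    (f := fun h => |∑ i : Fin D, b (h i)|)
  simp only [sq_abs] at h2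
  have h3 := var D H b hb h1
  have h4 : ((Fintype.piFinset (fun _ : Fin D => Icc 1 H)).card : ℝ) = (H : ℝ) ^ D := by
    rw [Fintype.card_piFinset_const, Nat.card_Icc]
    simp
  rw [h4] at h2
  have h5 : (0 : ℝ) ≤ (H : ℝ) ^ D := by positivity
  apply le_of_sq_le_sq _ (by positivity)
  calc _ ≤ _ := h2
    _ ≤ (H : ℝ) ^ D * ((D : ℝ) * (H : ℝ) ^ D) := mul_le_mul_of_nonneg_left h3 h5
    _ = _ := by
        rw [mul_pow, Real.sq_sqrt (Nat.cast_nonneg D)]
        ring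

lemma inv_tail (z w : ℕ) : ∑ d ∈ Ioc z w, ((d : ℝ) ^ 2)⁻¹ ≤ 2 / (z + 1) := by
  refine le_trans ?_ (sum_Ioo_inv_sq_le z (w + 1))
  apply Finset.sum_le_sum_of_subset_of_nonneg _ (fun _ _ _ => by positivity)
  intro n
  simp only [Finset.mem_Ioc, Finset.mem_Ioo]
  omega

/-- the mean value of `μ²` in `(n, n + H]`. -/
lemma mean (z H w n : ℕ) (hw : n + H < (w + 1) ^ 2) (hn : 1 ≤ n) :
    |∑ k ∈ Icc 1 H, (ArithmeticFunction.moebius (n + k) : ℝ) ^ 2 - H * c2| ≤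
      ∑ k ∈ Icc 1 H, ∑ d ∈ Ioc z w, (if d ^ 2 ∣ n + k then (1 : ℝ) else 0) + z +
        H * (2 / (z + 1)) := by
  have e : ∑ k ∈ Icc 1 H, (ArithmeticFunction.moebius (n + k) : ℝ) ^ 2 - H * c2 =
      ∑ k ∈ Icc 1 H, ((ArithmeticFunction.moebius (n + k) : ℝ) ^ 2 -
        ∑ d ∈ Ioc 0 z, (if d ^ 2 ∣ n + k then (ArithmeticFunction.moebius d : ℝ) else 0)) +
      ∑ d ∈ Ioc 0 z, (ArithmeticFunction.moebius d : ℝ) *
        (∑ k ∈ Icc 1 H, (if d ^ 2 ∣ k + n then (1 : ℝ) else 0) - (H : ℝ) / ((d ^ 2 : ℕ) : ℝ)) +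
      H * (∑ d ∈ Ioc 0 z, (ArithmeticFunction.moebius d : ℝ) / (d : ℝ) ^ 2 - c2) := by
    rw [Finset.sum_sub_distrib, Finset.sum_comm]
    simp only [mul_sub, Finset.sum_sub_distrib, Finset.mul_sum]
    have e1 : ∑ d ∈ Ioc 0 z, ∑ k ∈ Icc 1 H, (ArithmeticFunction.moebius d : ℝ) *
        (if d ^ 2 ∣ k + n then (1 : ℝ) else 0) =
        ∑ d ∈ Ioc 0 z, ∑ k ∈ Icc 1 H,
          (if d ^ 2 ∣ n + k then (ArithmeticFunction.moebius d : ℝ) else 0) := by
      apply Finset.sum_congr rfl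
      intro d _
      apply Finset.sum_congr rfl
      intro k _
      rw [Nat.add_comm k n]
      split_ifs <;> simp
    have e2 : ∑ d ∈ Ioc 0 z, (ArithmeticFunction.moebius d : ℝ) * ((H : ℝ) / ((d ^ 2 : ℕ) : ℝ)) =
        ∑ d ∈ Ioc 0 z, (H : ℝ) * ((ArithmeticFunction.moebius d : ℝ) / (d : ℝ) ^ 2) := by
      apply Finset.sum_congr rfl
      intro d _
      push_cast
      ring
    rw [e1, e2]
    ring
  rw [e]
  have b1 : |∑ k ∈ Icc 1 H, ((ArithmeticFunction.moebius (n + k) : ℝ) ^ 2 -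
        ∑ d ∈ Ioc 0 z, (if d ^ 2 ∣ n + k then (ArithmeticFunction.moebius d : ℝ) else 0))| ≤
      ∑ k ∈ Icc 1 H, ∑ d ∈ Ioc z w, (if d ^ 2 ∣ n + k then (1 : ℝ) else 0) := by
    refine (Finset.abs_sum_le_sum_abs _ _).trans (Finset.sum_le_sum fun k hk => ?_)
    rw [Finset.mem_Icc] at hk
    exact MCP.SqcAux.sqf (n + k) z w (by omega) (lt_of_le_of_lt (by omega) hw)
  have b2 : |∑ d ∈ Ioc 0 z, (ArithmeticFunction.moebius d : ℝ) *
        (∑ k ∈ Icc 1 H, (if d ^ 2 ∣ k + n then (1 : ℝ) else 0) -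
          (H : ℝ) / ((d ^ 2 : ℕ) : ℝ))| ≤ z := by
    refine (Finset.abs_sum_le_sum_abs _ _).trans ?_
    calc _ ≤ ∑ d ∈ Ioc 0 z, (1 : ℝ) := by
          apply Finset.sum_le_sum
          intro d hd
          rw [Finset.mem_Ioc] at hd
          rw [abs_mul]
          exact mul_le_one₀ (MCP.SqcAux.mobs d) (abs_nonneg _)
            (MCP.SqcAux.cnt n H (d ^ 2) (by have := hd.1; positivity))
      _ = z := by simp
  have b3 : |(H : ℝ) * (∑ d ∈ Ioc 0 z, (ArithmeticFunction.moebius d : ℝ) / (d : ℝ) ^ 2 - c2)| ≤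
      H * (2 / (z + 1)) := by
    rw [abs_mul, abs_of_nonneg (Nat.cast_nonneg H)]
    exact mul_le_mul_of_nonneg_left (moebius_sq_tail z) (Nat.cast_nonneg H)
  exact (abs_add_three _ _ _).trans (add_le_add (add_le_add b1 b2) b3)

lemma tail_sum (z H w x : ℕ) :
    ∑ n ∈ Icc 1 x, ∑ k ∈ Icc 1 H, ∑ d ∈ Ioc z w, (if d ^ 2 ∣ n + k then (1 : ℝ) else 0) ≤
      H * (x * (2 / (z + 1)) + w) := by
  rw [Finset.sum_comm]
  have h1 : ∀ k ∈ Icc 1 H, ∑ n ∈ Icc 1 x, ∑ d ∈ Ioc z w, (if d ^ 2 ∣ n + k then (1 : ℝ) else 0) ≤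
      x * (2 / (z + 1)) + w := by
    intro k _
    rw [Finset.sum_comm]
    calc _ ≤ ∑ d ∈ Ioc z w, ((x : ℝ) * ((d : ℝ) ^ 2)⁻¹ + 1) := by
          apply Finset.sum_le_sum
          intro d hd
          rw [Finset.mem_Ioc] at hd
          have hd0 : 0 < d := by omega
          have h2 := MCP.SqcAux.cnt k x (d ^ 2) (by positivity)
          rw [abs_le] at h2
          push_cast at h2
          rw [← div_eq_mul_inv]
          linarith [h2.2]
      _ = (x : ℝ) * ∑ d ∈ Ioc z w, ((d : ℝ) ^ 2)⁻¹ + ((w - z : ℕ) : ℝ) := by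
          rw [Finset.sum_add_distrib, Finset.mul_sum, Finset.sum_const, Nat.card_Ioc, nsmul_eq_mul,
            mul_one]
      _ ≤ _ := by
          have h3 := mul_le_mul_of_nonneg_left (inv_tail z w) (Nat.cast_nonneg (α := ℝ) x)
          have h4 : ((w - z : ℕ) : ℝ) ≤ w := by exact_mod_cast Nat.sub_le w z
          linarith
  calc _ ≤ ∑ _k ∈ Icc 1 H, ((x : ℝ) * (2 / (z + 1)) + w) := Finset.sum_le_sum h1
    _ = _ := by
      rw [Finset.sum_const, Nat.card_Icc, Nat.add_sub_cancel, nsmul_eq_mul]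

end ConSAux

open ConSAux in
theorem con_s : ∃ C : ℝ, 1 ≤ C ∧ ∀ z D H x : ℕ, 1 ≤ z → 1 ≤ H → H ≤ x →
    ∑ h ∈ Fintype.piFinset (fun _ : Fin D => Icc 1 H), ∑ n ∈ Icc 1 x,
      |∑ i : Fin D, (ArithmeticFunction.moebius (n + h i) : ℝ) ^ 2 - c2 * D| ≤
      C * (H : ℝ) ^ D * (x * (Real.sqrt D + D / z + D * z / H) + D * Real.sqrt x) := by
  refine ⟨4, by norm_num, fun z D H x hz hH hHx => ?_⟩
  have hHr : (0 : ℝ) < H := by exact_mod_cast hH
  have hzr : (0 : ℝ) < z := by exact_mod_cast hz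
  have hxr : (0 : ℝ) ≤ x := Nat.cast_nonneg x
  have hDr : (0 : ℝ) ≤ D := Nat.cast_nonneg D
  have hP : (0 : ℝ) ≤ (H : ℝ) ^ D := by positivity
  set q : ℕ → ℝ := fun n => (∑ k ∈ Icc 1 H, (ArithmeticFunction.moebius (n + k) : ℝ) ^ 2) / H
    with hq
  set w := Nat.sqrt (2 * x) with hwd
  have hw : ∀ n ∈ Icc 1 x, n + H < (w + 1) ^ 2 := by
    intro n hn
    rw [Finset.mem_Icc] at hn
    have := Nat.lt_succ_sqrt' (2 * x)
    have h2 : Nat.succ (Nat.sqrt (2 * x)) = w + 1 := rfl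
    rw [h2] at this
    omega
  have hwx : (w : ℝ) ≤ 2 * Real.sqrt x := by
    have h1 := Nat.sqrt_le' (2 * x)
    have h2 : (w : ℝ) ^ 2 ≤ 2 * x := by exact_mod_cast h1
    apply le_of_sq_le_sq _ (by positivity)
    rw [mul_pow, Real.sq_sqrt hxr]
    linarith
  have msq : ∀ N : ℕ, 0 ≤ (ArithmeticFunction.moebius N : ℝ) ^ 2 ∧
      (ArithmeticFunction.moebius N : ℝ) ^ 2 ≤ 1 := by
    intro N
    refine ⟨sq_nonneg _, ?_⟩
    have := MCP.SqcAux.mobs N
    rw [← sq_abs]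
    exact pow_le_one₀ (abs_nonneg _) this
  have hq0 : ∀ n, 0 ≤ q n := fun n => div_nonneg (Finset.sum_nonneg fun k _ => (msq _).1) hHr.le
  have hq1 : ∀ n, q n ≤ 1 := by
    intro n
    rw [hq]
    simp only
    rw [div_le_one hHr]
    calc _ ≤ ∑ _k ∈ Icc 1 H, (1 : ℝ) := Finset.sum_le_sum fun k _ => (msq _).2
      _ = H := by simp
  have hsum0 : ∀ n, ∑ k ∈ Icc 1 H, ((ArithmeticFunction.moebius (n + k) : ℝ) ^ 2 - q n) = 0 := by
    intro n
    rw [Finset.sum_sub_distrib, Finset.sum_const, Nat.card_Icc, nsmul_eq_mul, Nat.add_sub_cancel]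
    rw [hq]
    simp only
    field_simp
    ring
  -- the shifts
  have hA : ∀ n, ∑ h ∈ Fintype.piFinset (fun _ : Fin D => Icc 1 H),
      |∑ i : Fin D, (ArithmeticFunction.moebius (n + h i) : ℝ) ^ 2 - c2 * D| ≤
      (H : ℝ) ^ D * Real.sqrt D + (H : ℝ) ^ D * (D * |q n - c2|) := by
    intro n
    have h1 := cs D H (fun k => (ArithmeticFunction.moebius (n + k) : ℝ) ^ 2 - q n) (hsum0 n)
      (fun k => by
        rw [abs_le]
        have := msq (n + k)
        have := hq0 n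
        have := hq1 n
        constructor <;> linarith [(msq (n + k)).1, (msq (n + k)).2])
    have h2 : ∀ h : Fin D → ℕ, |∑ i : Fin D, (ArithmeticFunction.moebius (n + h i) : ℝ) ^ 2 -
        c2 * D| ≤ |∑ i : Fin D, ((ArithmeticFunction.moebius (n + h i) : ℝ) ^ 2 - q n)| +
        D * |q n - c2| := by
      intro h
      have e : ∑ i : Fin D, (ArithmeticFunction.moebius (n + h i) : ℝ) ^ 2 - c2 * D =
          ∑ i : Fin D, ((ArithmeticFunction.moebius (n + h i) : ℝ) ^ 2 - q n) +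
          D * (q n - c2) := by
        rw [Finset.sum_sub_distrib, Finset.sum_const, Finset.card_univ, Fintype.card_fin,
          nsmul_eq_mul]
        ring
      rw [e]
      refine (abs_add_le _ _).trans ?_
      rw [abs_mul, abs_of_nonneg hDr]
    refine (Finset.sum_le_sum fun h _ => h2 h).trans ?_
    rw [Finset.sum_add_distrib, Finset.sum_const, Fintype.card_piFinset_const, Nat.card_Icc,
      Nat.add_sub_cancel, nsmul_eq_mul]
    push_cast
    linarith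
  have hB : ∑ n ∈ Icc 1 x, |q n - c2| ≤ 4 * (x / z) + 2 * Real.sqrt x + x * z / H := by
    have h1 : ∀ n ∈ Icc 1 x, |q n - c2| ≤ (∑ k ∈ Icc 1 H, ∑ d ∈ Ioc z w,
        (if d ^ 2 ∣ n + k then (1 : ℝ) else 0) + z + H * (2 / (z + 1))) / H := by
      intro n hn
      have h2 := mean z H w n (hw n hn) (Finset.mem_Icc.1 hn).1
      rw [le_div_iff₀ hHr]
      have e : |q n - c2| * H =
          |∑ k ∈ Icc 1 H, (ArithmeticFunction.moebius (n + k) : ℝ) ^ 2 - H * c2| := by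
        rw [← abs_of_pos hHr, ← abs_mul, abs_of_pos hHr]
        congr 1
        rw [hq]
        simp only
        field_simp
      rw [e]
      exact h2
    refine (Finset.sum_le_sum h1).trans ?_
    rw [← Finset.sum_div, Finset.sum_add_distrib, Finset.sum_add_distrib, Finset.sum_const,
      Finset.sum_const, Nat.card_Icc, Nat.add_sub_cancel, nsmul_eq_mul, nsmul_eq_mul]
    have h3 := tail_sum z H w x
    have h4 : (2 : ℝ) / (z + 1) ≤ 2 / z := by
      apply div_le_div_of_nonneg_left (by norm_num) hzr (by linarith)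
    rw [div_le_iff₀ hHr]
    have h5 : (H : ℝ) * (x * (2 / (z + 1)) + w) ≤ H * (x * (2 / z) + 2 * Real.sqrt x) := by
      apply mul_le_mul_of_nonneg_left _ hHr.le
      have := mul_le_mul_of_nonneg_left h4 hxr
      linarith
    have h6 : (x : ℝ) * (H * (2 / (z + 1))) ≤ x * (H * (2 / z)) :=
      mul_le_mul_of_nonneg_left (mul_le_mul_of_nonneg_left h4 hHr.le) hxr
    have e : (4 * ((x : ℝ) / z) + 2 * Real.sqrt x + x * z / H) * H =
        H * (x * (2 / z) + 2 * Real.sqrt x) + x * z + x * (H * (2 / z)) := by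
      field_simp
      ring
    rw [e]
    linarith
  rw [Finset.sum_comm]
  refine (Finset.sum_le_sum fun n _ => hA n).trans ?_
  rw [Finset.sum_add_distrib, ← Finset.mul_sum, ← Finset.mul_sum, Finset.sum_const, Nat.card_Icc,
    Nat.add_sub_cancel, nsmul_eq_mul]
  have hsD : 0 ≤ Real.sqrt D := Real.sqrt_nonneg _
  have hsx : 0 ≤ Real.sqrt x := Real.sqrt_nonneg _
  have h7 : (H : ℝ) ^ D * (D * ∑ n ∈ Icc 1 x, |q n - c2|) ≤
      (H : ℝ) ^ D * (D * (4 * (x / z) + 2 * Real.sqrt x + x * z / H)) :=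
    mul_le_mul_of_nonneg_left (mul_le_mul_of_nonneg_left hB hDr) hP
  have h8 : (x : ℝ) * ((H : ℝ) ^ D * Real.sqrt D) +
      (H : ℝ) ^ D * (D * (4 * (x / z) + 2 * Real.sqrt x + x * z / H)) ≤
      4 * (H : ℝ) ^ D * (x * (Real.sqrt D + D / z + D * z / H) + D * Real.sqrt x) := by
    have e : 4 * (H : ℝ) ^ D * (x * (Real.sqrt D + D / z + D * z / H) + D * Real.sqrt x) -
        ((x : ℝ) * ((H : ℝ) ^ D * Real.sqrt D) +
          (H : ℝ) ^ D * (D * (4 * (x / z) + 2 * Real.sqrt x + x * z / H))) =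
        (H : ℝ) ^ D * (3 * (x * Real.sqrt D) + 3 * (x * D * z / H) + 2 * (D * Real.sqrt x)) := by
      ring
    have : 0 ≤ (H : ℝ) ^ D * (3 * (x * Real.sqrt D) + 3 * (x * D * z / H) +
        2 * (D * Real.sqrt x)) := by positivity
    linarith
  have h9 : ∑ n ∈ Icc 1 x, (D : ℝ) * |q n - c2| = D * ∑ n ∈ Icc 1 x, |q n - c2| := by
    rw [Finset.mul_sum]
  rw [h9]
  linarith

end Pool.Agent.MS
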