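import Mathlib

/-!
# Package MS: sums of the Moebius function over random sets of shifts, definitions

`GoodS D K0 x δ h`: all correlations of at most `K0` of the shifts `h 0, ..., h (D - 1)` over `[1, x]` are at most `δ`.
-/

set_option autoImplicit false

open Finset

namespace Pool.Agent.MS

/-- Small correlations of at most `K0` shifts. -/
def GoodS (D K0 x : ℕ) (δ : ℝ) (h : ℕ → ℕ) : Prop :=
  ∀ J I : Finset ℕ, J ⊆ I → I ⊆ range D → I.card ≤ K0 → J.Nonempty →
    |∑ n ∈ Icc 1 x, (∏ i ∈ J, (ArithmeticFunction.moebius (n + h i) : ℝ)) *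
      ∏ i ∈ I \ J, (ArithmeticFunction.moebius (n + h i) : ℝ) ^ 2| ≤ δ

/-- Extension of a vector by zero. -/
def exv {D : ℕ} (h : Fin D → ℕ) (i : ℕ) : ℕ := if hi : i < D then h ⟨i, hi⟩ else 0

theorem exv_val {D : ℕ} (h : Fin D → ℕ) (i : Fin D) : exv h i.val = h i := by
  unfold exv
  rw [dif_pos i.2]

end Pool.Agent.MS
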