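import Pool.Agent.Lib.MS.Defs
import Pool.Agent.Lib.MCP.Tup

/-!
# Module ExcS: almost all vectors of shifts are good

PROOF. `L = log x`, `A' = A + (K + 2) K0 + 2`-like. For every `r ≤ K0`, `r ≥ 1`, and every pattern `κ : Fin r → Bool` with some `κ j0 = true` apply `MCP.tup_mu r A' 0 ε` with `f0 = 1`, `f j = mz` if `κ j` and `f j = mz^2` otherwise, `Y = x`: the set `B r κ` of the vectors
`g ∈ [-H, H]^r` with `x/L^A' < |∑_{n ≤ x} ∏_j f j (n + g j)|` has at most `H^r/L^A'` elements (finitely many `r`, `κ`: `eventually_all`). If `h ∈ [1, H]^D` is not good, there are `J ⊆ I ⊆ range D`, `r = |I| ≤ K0`; let `i : Fin r → range D` be the increasing enumeration of `I` (`Finset.orderEmbOfFin`) and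
`κ j = (i j ∈ J)`: then `(h (i j))_j ∈ B r κ` (`mz ((n + h : ℕ) : ℤ) = μ(n + h)`, `MCP.mz_nat`; the sums over `Icc (1 : ℤ) x` and `Icc 1 x` agree; `x/L^A < |..|` implies `x/L^A' < |..|`).
For fixed `r`, `κ` and injective `i : Fin r → Fin D` the number of `h ∈ [1, H]^D` with `h ∘ i ∈ B r κ` is at most `|B r κ| H^(D - r)` (the map `h ↦ (h ∘ i, h restricted to the complement of the range of i)` is injective), and there are at most `D^r` maps `i`.
Total `≤ ∑_{r ≤ K0} 2^r D^r H^r/L^A' H^(D-r) ≤ (K0 + 1) 2^K0 L^(K K0) H^D/L^A' ≤ H^D/L^A` (`D ≤ L^K`; `D ≥ 1` or nothing to do). `E` = the set of the `h ∈ [1,H]^D` which are not good (classical filter).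
-/

set_option autoImplicit false

open Finset Filter

namespace Pool.Agent.MS

open Pool.Agent.MCP

namespace ExcSAux

/-- The function at a slot. -/
noncomputable def fs (b : Bool) (n : ℤ) : ℝ := if b = true then mz n else mz n ^ 2

theorem abs_fs (b : Bool) (n : ℤ) : |fs b n| ≤ 1 := by
  unfold fs
  have h1 := abs_mz n
  split_ifs
  · exact h1
  · rw [abs_pow]
    exact pow_le_one₀ (abs_nonneg _) h1

/-- The correlation. -/
noncomputable def Sm (x : ℕ) {r : ℕ} (κ : Fin r → Bool) (g : Fin r → ℤ) : ℝ :=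
  ∑ n ∈ Icc (1 : ℤ) x, 1 * ∏ j : Fin r, fs (κ j) (n + g j)

/-- Bad short vectors. -/
noncomputable def Bs (x H : ℕ) (T : ℝ) {r : ℕ} (κ : Fin r → Bool) : Finset (Fin r → ℤ) :=
  (Fintype.piFinset (fun _ : Fin r => Icc (-(H : ℤ)) H)).filter (fun h => T < |Sm x κ h|)

/-- Bad long vectors. -/
noncomputable def Bl (x H D : ℕ) (T : ℝ) {r : ℕ} (i : Fin r → Fin D) (κ : Fin r → Bool) : Finset (Fin D → ℕ) :=
  (Fintype.piFinset (fun _ : Fin D => Icc 1 H)).filter (fun h => T < |Sm x κ (fun j => (h (i j) : ℤ))|)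

theorem card_Bl (x H D : ℕ) (T : ℝ) {r : ℕ} (i : Fin r → Fin D) (hi : Function.Injective i) (κ : Fin r → Bool) :
    (Bl x H D T i κ).card ≤ (Bs x H T κ).card * H ^ (D - r) := by
  classical
  have hc : (Fintype.piFinset (fun _ : {k : Fin D // k ∉ Set.range i} => Icc 1 H)).card = H ^ (D - r) := by
    rw [Fintype.card_piFinset, prod_const, Nat.card_Icc, Nat.add_sub_cancel, card_univ]
    congr 1
    have h1 := Fintype.card_subtype_compl (fun k : Fin D => k ∈ Set.range i)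
    have h2 : Fintype.card {k : Fin D // k ∈ Set.range i} = r := by
      have h3 := Set.card_range_of_injective hi
      rw [Fintype.card_fin] at h3
      exact (Fintype.card_congr (Equiv.refl _)).trans h3
    rw [h2, Fintype.card_fin] at h1
    exact h1
  rw [← hc, ← card_product]
  refine card_le_card_of_injOn (fun h => ((fun j => (h (i j) : ℤ)), fun k => h k.1)) ?_ ?_
  · intro h hh
    rw [mem_coe] at hh
    unfold Bl at hh
    rw [mem_filter, Fintype.mem_piFinset] at hh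
    rw [mem_coe, mem_product]
    refine ⟨?_, ?_⟩
    · unfold Bs
      rw [mem_filter, Fintype.mem_piFinset]
      refine ⟨fun j => ?_, hh.2⟩
      have h1 := hh.1 (i j)
      rw [mem_Icc] at h1 ⊢
      show -(H : ℤ) ≤ (h (i j) : ℤ) ∧ (h (i j) : ℤ) ≤ H
      constructor
      · omega
      · omega
    · rw [Fintype.mem_piFinset]
      exact fun k => hh.1 k.1
  · intro h _ h' _ he
    have he' := Prod.mk.inj he
    have e1 := he'.1
    have e2 := he'.2
    funext k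
    by_cases hk : k ∈ Set.range i
    · obtain ⟨j, rfl⟩ := hk
      have := congrFun e1 j
      exact_mod_cast this
    · exact congrFun e2 ⟨k, hk⟩

theorem sum_int (x : ℕ) (φ : ℤ → ℝ) : ∑ n ∈ Icc (1 : ℤ) x, φ n = ∑ n ∈ Icc 1 x, φ (n : ℤ) := by
  have h1 : (Icc 1 x).image (fun n : ℕ => (n : ℤ)) = Icc (1 : ℤ) x := by
    ext m
    rw [mem_image, mem_Icc]
    constructor
    · rintro ⟨n, hn, rfl⟩
      rw [mem_Icc] at hn
      constructor
      · omega
      · omega
    · intro hm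
      refine ⟨m.toNat, ?_, by omega⟩
      rw [mem_Icc]
      omega
  rw [← h1, sum_image]
  intro a _ b _ hab
  have h2 : (a : ℤ) = (b : ℤ) := hab
  exact_mod_cast h2

theorem Sm_eq (x D : ℕ) (h : Fin D → ℕ) (J I : Finset ℕ) (hJI : J ⊆ I) (hI : I ⊆ range D) :
    ∃ (i : Fin I.card → Fin D) (κ : Fin I.card → Bool), Function.Injective i ∧ (J.Nonempty → ∃ j, κ j = true) ∧
      Sm x κ (fun j => (h (i j) : ℤ)) = ∑ n ∈ Icc 1 x, (∏ i ∈ J, (ArithmeticFunction.moebius (n + exv h i) : ℝ)) *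
        ∏ i ∈ I \ J, (ArithmeticFunction.moebius (n + exv h i) : ℝ) ^ 2 := by
  classical
  have hlt : ∀ j : Fin I.card, I.orderEmbOfFin rfl j < D := fun j =>
    mem_range.1 (hI (Finset.orderEmbOfFin_mem I rfl j))
  refine ⟨fun j => ⟨I.orderEmbOfFin rfl j, hlt j⟩, fun j => decide (I.orderEmbOfFin rfl j ∈ J), ?_, ?_, ?_⟩
  · intro a b hab
    have h1 := Fin.mk.inj hab
    exact (I.orderEmbOfFin rfl).injective h1
  · rintro ⟨v, hv⟩
    have h1 : v ∈ Set.range (I.orderEmbOfFin rfl) := by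
      rw [Finset.range_orderEmbOfFin]
      exact hJI hv
    obtain ⟨j, hj⟩ := h1
    refine ⟨j, ?_⟩
    rw [decide_eq_true_eq, hj]
    exact hv
  · unfold Sm
    rw [sum_int]
    refine sum_congr rfl fun n _ => ?_
    rw [one_mul]
    have h1 : ∏ j : Fin I.card, fs (decide (I.orderEmbOfFin rfl j ∈ J))
        ((n : ℤ) + (h ⟨I.orderEmbOfFin rfl j, hlt j⟩ : ℤ)) =
        ∏ v ∈ I, fs (decide (v ∈ J)) ((n : ℤ) + (exv h v : ℤ)) := by
      conv_rhs => rw [← Finset.map_orderEmbOfFin_univ I rfl]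
      rw [prod_map]
      refine prod_congr rfl fun j _ => ?_
      have h2 : exv h (I.orderEmbOfFin rfl j) = h ⟨I.orderEmbOfFin rfl j, hlt j⟩ :=
        exv_val h ⟨I.orderEmbOfFin rfl j, hlt j⟩
      simp only [RelEmbedding.coe_toEmbedding]
      rw [h2]
    rw [h1, ← prod_sdiff hJI, mul_comm]
    congr 1
    · refine prod_congr rfl fun v hv => ?_
      unfold fs
      rw [if_pos (by rw [decide_eq_true_eq]; exact hv), ← Nat.cast_add, mz_nat]
    · refine prod_congr rfl fun v hv => ?_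
      rw [Finset.mem_sdiff] at hv
      unfold fs
      rw [if_neg (by rw [decide_eq_true_eq]; exact hv.2), ← Nat.cast_add, mz_nat]

end ExcSAux

theorem exc_s (K0 K A : ℕ) (ε : ℝ) (hε : 0 < ε) : ∀ᶠ x : ℕ in atTop, ∀ D H : ℕ, (D : ℝ) ≤ Real.log x ^ K →
    (x : ℝ) ^ (1 / 6 + ε) ≤ H → H ≤ x → ∃ E : Finset (Fin D → ℕ), (E.card : ℝ) ≤ (H : ℝ) ^ D / Real.log x ^ A ∧
      ∀ h : Fin D → ℕ, (∀ i, 1 ≤ h i ∧ h i ≤ H) → h ∉ E → GoodS D K0 x (x / Real.log x ^ A) (exv h) := by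
  classical
  set A' : ℕ := A + K * K0 + 1 with hA'
  have h0 : ∀ᶠ x : ℕ in atTop, ∀ r ∈ range (K0 + 1), ∀ H Y : ℕ, (x : ℝ) ^ (1 / 6 + ε) ≤ H →
    (H : ℝ) ≤ x * Real.log x ^ 0 → Y ≤ x → ∀ (f0 : ℤ → ℝ) (f : Fin r → ℤ → ℝ) (j0 : Fin r), (∀ n, |f0 n| ≤ 1) →
    (∀ j n, |f j n| ≤ 1) → f j0 = mz →
    (((Fintype.piFinset (fun _ : Fin r => Icc (-(H : ℤ)) H)).filter (fun h =>
      (x : ℝ) / Real.log x ^ A' < |∑ n ∈ Icc (1 : ℤ) Y, f0 n * ∏ j : Fin r, f j (n + h j)|)).card : ℝ) ≤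
      (H : ℝ) ^ r / Real.log x ^ A' :=
    (Filter.eventually_all_finset (range (K0 + 1))).2 fun r _ => tup_mu r A' 0 ε hε
  have hlog : Tendsto (fun x : ℕ => Real.log (x : ℝ)) atTop atTop :=
    Real.tendsto_log_atTop.comp tendsto_natCast_atTop_atTop
  filter_upwards [h0, hlog.eventually_ge_atTop 1, hlog.eventually_ge_atTop (((K0 : ℝ) + 1) * 2 ^ K0)]
    with x hx hL1 hL2
  intro D H hD hH1 hH2
  obtain ⟨L, hL⟩ : ∃ L, L = Real.log (x : ℝ) := ⟨_, rfl⟩
  rw [← hL] at hx hL1 hL2 hD ⊢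
  have hL0 : 0 < L := by linarith
  have hpA : 0 < L ^ A := by positivity
  have hpA' : 0 < L ^ A' := by positivity
  rcases Nat.eq_zero_or_pos D with hD0 | hD0
  · refine ⟨∅, by rw [card_empty]; push_cast; positivity, ?_⟩
    intro h _ _ J I hJI hI _ hJ
    exfalso
    obtain ⟨v, hv⟩ := hJ
    have := hI (hJI hv)
    rw [hD0] at this
    simp at this
  have hTT : (x : ℝ) / L ^ A' ≤ (x : ℝ) / L ^ A :=
    div_le_div_of_nonneg_left (by positivity) hpA (pow_le_pow_right₀ hL1 (by omega))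
  have hHx : (H : ℝ) ≤ x * L ^ 0 := by
    rw [pow_zero, mul_one]
    exact_mod_cast hH2
  -- one pattern
  have hone : ∀ r ∈ range (K0 + 1), ∀ (i : Fin r → Fin D) (κ : Fin r → Bool), Function.Injective i →
      (∃ j, κ j = true) → ((ExcSAux.Bl x H D (x / L ^ A') i κ).card : ℝ) ≤ (H : ℝ) ^ D / L ^ A' := by
    intro r hr i κ hi hκ
    obtain ⟨j0, hj0⟩ := hκ
    have h1 : ((ExcSAux.Bs x H (x / L ^ A') κ).card : ℝ) ≤ (H : ℝ) ^ r / L ^ A' := by
      have h2 := hx r hr H x hH1 hHx (le_refl x) (fun _ => 1) (fun j => ExcSAux.fs (κ j)) j0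
        (fun n => by rw [abs_one]) (fun j n => ExcSAux.abs_fs (κ j) n)
        (by funext n; unfold ExcSAux.fs; rw [if_pos hj0])
      exact h2
    have h3 : ((ExcSAux.Bl x H D (x / L ^ A') i κ).card : ℝ) ≤
        ((ExcSAux.Bs x H (x / L ^ A') κ).card : ℝ) * (H : ℝ) ^ (D - r) := by
      exact_mod_cast ExcSAux.card_Bl x H D (x / L ^ A') i hi κ
    have hrD : r ≤ D := by
      have := Fintype.card_le_of_injective i hi
      rwa [Fintype.card_fin, Fintype.card_fin] at this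
    refine h3.trans ?_
    calc ((ExcSAux.Bs x H (x / L ^ A') κ).card : ℝ) * (H : ℝ) ^ (D - r)
        ≤ (H : ℝ) ^ r / L ^ A' * (H : ℝ) ^ (D - r) := mul_le_mul_of_nonneg_right h1 (by positivity)
      _ = (H : ℝ) ^ D / L ^ A' := by
          rw [div_mul_eq_mul_div, ← pow_add, Nat.add_sub_cancel' hrD]
  set E : Finset (Fin D → ℕ) := (range (K0 + 1)).biUnion fun r =>
    (univ : Finset (Fin r → Fin D)).biUnion fun i => (univ : Finset (Fin r → Bool)).biUnion fun κ =>
      if Function.Injective i ∧ ∃ j, κ j = true then ExcSAux.Bl x H D (x / L ^ A') i κ else ∅ with hE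
  have hHD : (0 : ℝ) ≤ (H : ℝ) ^ D / L ^ A' := by positivity
  have hcard : (E.card : ℝ) ≤ ∑ r ∈ range (K0 + 1), ((D : ℝ) ^ r * 2 ^ r) * ((H : ℝ) ^ D / L ^ A') := by
    have h1 : E.card ≤ ∑ r ∈ range (K0 + 1), ∑ i : Fin r → Fin D, ∑ κ : Fin r → Bool,
        (if Function.Injective i ∧ ∃ j, κ j = true then ExcSAux.Bl x H D (x / L ^ A') i κ else ∅).card := by
      refine card_biUnion_le.trans (sum_le_sum fun r _ => ?_)
      refine card_biUnion_le.trans (sum_le_sum fun i _ => ?_)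
      exact card_biUnion_le
    have h2 : (E.card : ℝ) ≤ ∑ r ∈ range (K0 + 1), ∑ i : Fin r → Fin D, ∑ κ : Fin r → Bool,
        (((if Function.Injective i ∧ ∃ j, κ j = true then ExcSAux.Bl x H D (x / L ^ A') i κ else ∅).card : ℕ) : ℝ) := by
      exact_mod_cast h1
    refine h2.trans (sum_le_sum fun r hr => ?_)
    calc ∑ i : Fin r → Fin D, ∑ κ : Fin r → Bool,
        (((if Function.Injective i ∧ ∃ j, κ j = true then ExcSAux.Bl x H D (x / L ^ A') i κ else ∅).card : ℕ) : ℝ)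
        ≤ ∑ i : Fin r → Fin D, ∑ κ : Fin r → Bool, (H : ℝ) ^ D / L ^ A' := by
          refine sum_le_sum fun i _ => sum_le_sum fun κ _ => ?_
          split_ifs with h3
          · exact hone r hr i κ h3.1 h3.2
          · rw [card_empty]
            push_cast
            exact hHD
      _ = ((D : ℝ) ^ r * 2 ^ r) * ((H : ℝ) ^ D / L ^ A') := by
          rw [sum_const, sum_const, card_univ, card_univ]
          simp only [Fintype.card_pi, prod_const, card_univ, Fintype.card_fin, Fintype.card_bool, nsmul_eq_mul]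
          push_cast
          ring
  refine ⟨E, hcard.trans ?_, ?_⟩
  · have hD1 : (1 : ℝ) ≤ D := by exact_mod_cast hD0
    have h1 : ∀ r ∈ range (K0 + 1), ((D : ℝ) ^ r * 2 ^ r) * ((H : ℝ) ^ D / L ^ A') ≤
        (L ^ (K * K0) * 2 ^ K0) * ((H : ℝ) ^ D / L ^ A') := by
      intro r hr
      rw [mem_range] at hr
      refine mul_le_mul_of_nonneg_right ?_ hHD
      refine mul_le_mul ?_ (pow_le_pow_right₀ (by norm_num) (by omega)) (by positivity) (by positivity)
      calc (D : ℝ) ^ r ≤ (D : ℝ) ^ K0 := pow_le_pow_right₀ hD1 (by omega)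
        _ ≤ (L ^ K) ^ K0 := pow_le_pow_left₀ (by positivity) hD K0
        _ = L ^ (K * K0) := by rw [pow_mul]
    refine (sum_le_sum h1).trans ?_
    rw [sum_const, card_range, nsmul_eq_mul]
    have h2 : L ^ A' = L ^ (K * K0) * L * L ^ A := by
      rw [hA', pow_succ, pow_add]
      ring
    rw [h2]
    have h3 : ((K0 + 1 : ℕ) : ℝ) * (L ^ (K * K0) * 2 ^ K0 * ((H : ℝ) ^ D / (L ^ (K * K0) * L * L ^ A))) =
        (((K0 : ℝ) + 1) * 2 ^ K0 / L) * ((H : ℝ) ^ D / L ^ A) := by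
      push_cast
      field_simp
    rw [h3]
    have h4 : ((K0 : ℝ) + 1) * 2 ^ K0 / L ≤ 1 := by
      rw [div_le_one hL0]
      exact hL2
    have h5 : (0 : ℝ) ≤ (H : ℝ) ^ D / L ^ A := by positivity
    nlinarith
  · intro h hh hE' J I hJI hI hIc hJ
    by_contra hcon
    rw [not_le] at hcon
    apply hE'
    obtain ⟨i, κ, hi, hκ, hS⟩ := ExcSAux.Sm_eq x D h J I hJI hI
    rw [hE, mem_biUnion]
    refine ⟨I.card, by rw [mem_range]; omega, ?_⟩
    rw [mem_biUnion]
    refine ⟨i, mem_univ _, ?_⟩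
    rw [mem_biUnion]
    refine ⟨κ, mem_univ _, ?_⟩
    rw [if_pos ⟨hi, hκ hJ⟩]
    unfold ExcSAux.Bl
    rw [mem_filter, Fintype.mem_piFinset]
    refine ⟨fun k => ?_, ?_⟩
    · rw [mem_Icc]
      exact hh k
    · rw [hS]
      exact lt_of_le_of_lt hTT hcon

end Pool.Agent.MS
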