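import Pool.Agent.Lib.MS.Defs
import Pool.Agent.Lib.P4f18df.Sqf
import Pool.Agent.Lib.P4f18dfC.Rad
import Pool.Agent.Lib.P4f18dfC.Gm
import Pool.Agent.Lib.MCP.DLaw
import Pool.Agent.Lib.MCP.LawM

/-!
# Module LawS: the normal law from small correlations and concentration

PROOF (compare MCP.Mom, MCP.LawM, MB.MomB, MB.LawB). `S_n = ∑_{i < D} c i μ(n + h i)`, `N(n) = ∑_{i < D} μ(n + h i)²`. (1) For `q ≤ K0`: `P4f18dfC.even_part q (range D) (fun i => c i * μ(n + h i))`: `S_n^q - Rm q .. = ∑ t ∈ ntr q (range D), ∏ j, c (t j) μ(n + h (t j))`; for `t ∈ ntr` with image `I` (`|I| ≤ q ≤ K0`) and set `J` of the values of odd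
multiplicity (nonempty) the product of the `μ` is `∏_(v ∈ J) μ(n + h v) ∏_(v ∈ I \ J) μ(n + h v)^2`; `GoodS`: `|∑_{n ≤ x} (S_n^q - Rm q)| ≤ D^q δ ≤ D^K0 δ ≤ η x` (`D ≥ 1`). Division by `(c2 D)^(q/2) x` (take `D0 ≥ 2`: `c2 D ≥ 1`) makes it at most `η`.
(2) `q` odd: `Rm = 0` (`Rm_odd`), `gm q = 0` (`gm_odd`). `q = 2l`: `Rm_even l` (`A = range D`, its `h` := `D`): `|Rm - gm (2l) N(n)^l| ≤ C_l D^l/D`; `|N(n)^l - (D c2)^l| ≤ l D^(l-1) |N(n) - D c2|`, and `∑_{n ≤ x} |N(n) - c2 D| ≤ η D x` by hypothesis. Division by `(D c2)^l`: the total error is at most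
`η + c2^(-l) (C_l/D + gm (2l) l η)`. (3) `MCP.d_law δ₀` gives `K0`; choose `η` small and `D0` large, depending on `K0` only, so that all errors are at most `1/K0`; apply `d_law` to `f n = S_n/√(c2 D)` with `y = x`; `f n ≤ t` iff `S_n ≤ t √(c2 D)`.
-/

set_option autoImplicit false

open Finset Filter ProbabilityTheory

namespace Pool.Agent.MS

open Pool.Agent.P4f18df Pool.Agent.P4f18dfT Pool.Agent.P4f18dfC

namespace LawSAux

open Pool.Agent.MCP.MomAux Pool.Agent.MCP.LawMAux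

/-- The weighted sum over the shifts. -/
noncomputable def ss (D : ℕ) (h : ℕ → ℕ) (c : ℕ → ℝ) (n : ℕ) : ℝ :=
  ∑ i ∈ range D, c i * (ArithmeticFunction.moebius (n + h i) : ℝ)

/-- The average of the powers over all signs. -/
noncomputable def aw (D : ℕ) (h : ℕ → ℕ) (c : ℕ → ℝ) (k n : ℕ) : ℝ :=
  Rm k (range D) (fun v => c v * (ArithmeticFunction.moebius (n + h v) : ℝ))

/-- The number of squarefree places. -/
noncomputable def NS (D : ℕ) (h : ℕ → ℕ) (n : ℕ) : ℝ :=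
  ∑ i ∈ range D, (ArithmeticFunction.moebius (n + h i) : ℝ) ^ 2

theorem gen {D K0 x : ℕ} {δ : ℝ} {h : ℕ → ℕ} (hgood : GoodS D K0 x δ h) (hδ : 0 ≤ δ) (k : ℕ)
    (hk : k ≤ K0) (c : ℕ → ℝ) (hc : ∀ i, |c i| ≤ 1) :
    |∑ n ∈ Icc 1 x, (ss D h c n ^ k - aw D h c k n)| ≤ (D : ℝ) ^ k * δ := by
  have h1 : ∀ n, ss D h c n ^ k - aw D h c k n = ∑ t ∈ ntr k (range D), (∏ i, c (t i)) *
      ((∏ v ∈ JJ t, (ArithmeticFunction.moebius (n + h v) : ℝ)) *
        ∏ v ∈ univ.image t \ JJ t, (ArithmeticFunction.moebius (n + h v) : ℝ) ^ 2) := by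
    intro n
    unfold ss aw
    rw [even_part, add_sub_cancel_left]
    refine Finset.sum_congr rfl fun t _ => ?_
    rw [Finset.prod_mul_distrib,
      prod_eq t (fun v => (ArithmeticFunction.moebius (n + h v) : ℝ)) fun v => cube_mu _]
  have h2 : ∑ n ∈ Icc 1 x, (ss D h c n ^ k - aw D h c k n) =
      ∑ t ∈ ntr k (range D), (∏ i, c (t i)) * ∑ n ∈ Icc 1 x,
      ((∏ v ∈ JJ t, (ArithmeticFunction.moebius (n + h v) : ℝ)) *
        ∏ v ∈ univ.image t \ JJ t, (ArithmeticFunction.moebius (n + h v) : ℝ) ^ 2) := by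
    simp_rw [Finset.mul_sum]
    rw [Finset.sum_comm]
    refine Finset.sum_congr rfl fun n _ => ?_
    rw [h1]
  have h3 : ∀ t ∈ ntr k (range D), |(∏ i, c (t i)) * ∑ n ∈ Icc 1 x,
      ((∏ v ∈ JJ t, (ArithmeticFunction.moebius (n + h v) : ℝ)) *
        ∏ v ∈ univ.image t \ JJ t, (ArithmeticFunction.moebius (n + h v) : ℝ) ^ 2)| ≤ δ := by
    intro t ht
    rw [ntr, Finset.mem_filter, Fintype.mem_piFinset] at ht
    obtain ⟨ht, hev⟩ := ht
    have hI : univ.image t ⊆ range D := by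
      intro v hv
      obtain ⟨i, _, rfl⟩ := Finset.mem_image.1 hv
      exact ht i
    have hJ : (JJ t).Nonempty := by
      push Not at hev
      obtain ⟨v, _, hv⟩ := hev
      have hv' := Nat.not_even_iff_odd.1 hv
      obtain ⟨i, hi⟩ := Finset.card_pos.1 hv'.pos
      exact ⟨v, Finset.mem_filter.2 ⟨Finset.mem_image.2 ⟨i, Finset.mem_univ i,
        (Finset.mem_filter.1 hi).2⟩, hv'⟩⟩
    have hk' : (univ.image t).card ≤ K0 := by
      refine Finset.card_image_le.trans ?_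
      rw [Finset.card_univ, Fintype.card_fin]
      exact hk
    have h4 := hgood (JJ t) (univ.image t) (Finset.filter_subset _ _) hI hk' hJ
    have h5 : |∏ i, c (t i)| ≤ 1 := by
      rw [Finset.abs_prod]
      exact Finset.prod_le_one (fun i _ => abs_nonneg _) fun i _ => hc _
    rw [abs_mul]
    exact (mul_le_of_le_one_left (abs_nonneg _) h5).trans h4
  rw [h2]
  refine (Finset.abs_sum_le_sum_abs _ _).trans ((Finset.sum_le_sum h3).trans ?_)
  rw [Finset.sum_const, nsmul_eq_mul]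
  refine mul_le_mul_of_nonneg_right ?_ hδ
  have h6 : (ntr k (range D)).card ≤ D ^ k := by
    refine (Finset.card_filter_le _ _).trans ?_
    rw [Fintype.card_piFinset, Finset.prod_const, card_range, Finset.card_univ, Fintype.card_fin]
  exact_mod_cast h6

theorem NS_nonneg (D : ℕ) (h : ℕ → ℕ) (n : ℕ) : 0 ≤ NS D h n := by
  unfold NS
  positivity

theorem NS_le (D : ℕ) (h : ℕ → ℕ) (n : ℕ) : NS D h n ≤ D := by
  unfold NS
  calc ∑ i ∈ range D, (ArithmeticFunction.moebius (n + h i) : ℝ) ^ 2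
      ≤ ∑ i ∈ range D, (1 : ℝ) := Finset.sum_le_sum fun i _ => mu_sq_le _
    _ = D := by simp

/-- The normalised moments. -/
theorem mom_s (K0 : ℕ) : ∃ (D0 : ℕ) (η : ℝ), 1 ≤ D0 ∧ 0 < η ∧ ∀ (D x : ℕ) (δ : ℝ) (h : ℕ → ℕ)
    (c : ℕ → ℝ), D0 ≤ D → 0 ≤ δ → GoodS D K0 x δ h → (∀ i, c i = 1 ∨ c i = -1) → 1 ≤ x →
    (D : ℝ) ^ K0 * δ ≤ η * x → ∑ n ∈ Icc 1 x, |NS D h n - c2 * D| ≤ η * D * x →
    ∀ k ≤ K0, |(∑ n ∈ Icc 1 x, (ss D h c n / Real.sqrt (c2 * D)) ^ k) / x - gm k| ≤ 1 / K0 := by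
  choose Cl hCl0 hCl using fun l => Rm_even l
  have hc2 := c2_pos
  have hc2' := c2_le
  obtain ⟨ρ, hρdef⟩ : ∃ ρ : ℝ, ρ = c2 := ⟨_, rfl⟩
  have hρ : 0 < ρ := by rw [hρdef]; exact hc2
  have hρ1 : ρ ≤ 1 := by rw [hρdef]; exact hc2'
  obtain ⟨A, hA⟩ : ∃ A : ℝ, A = ∑ l ∈ range (K0 + 1), Cl l := ⟨_, rfl⟩
  obtain ⟨B, hB⟩ : ∃ B : ℝ, B = ∑ l ∈ range (K0 + 1), gm (2 * l) * l * 1 := ⟨_, rfl⟩
  have hA0 : 0 ≤ A := by
    rw [hA]
    exact Finset.sum_nonneg fun l _ => hCl0 l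
  have hBt : ∀ l : ℕ, 0 ≤ gm (2 * l) * l * 1 := fun l => by
    have := gm_nonneg (2 * l)
    positivity
  have hB0 : 0 ≤ B := by
    rw [hB]
    exact Finset.sum_nonneg fun l _ => hBt l
  have hAl : ∀ l ≤ K0, Cl l ≤ A := fun l hl => by
    rw [hA]
    exact Finset.single_le_sum (f := Cl) (fun l _ => hCl0 l) (Finset.mem_range.2 (by omega))
  have hBl : ∀ l ≤ K0, gm (2 * l) * l * 1 ≤ B := fun l hl => by
    rw [hB]
    exact Finset.single_le_sum (f := fun l : ℕ => gm (2 * l) * l * 1) (fun l _ => hBt l)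
      (Finset.mem_range.2 (by omega))
  obtain ⟨τ, hτdef⟩ : ∃ τ : ℝ, τ = ρ ^ K0 / (K0 + 1) := ⟨_, rfl⟩
  have hτ : 0 < τ := by rw [hτdef]; positivity
  obtain ⟨z, hz⟩ := exists_nat_gt (4 * B / τ + 1)
  have hz1 : (1 : ℝ) < z := by
    have : 0 ≤ 4 * B / τ := by positivity
    linarith
  have hz0 : (0 : ℝ) < z := by linarith
  have hBz : B * (1 / z) ≤ τ / 4 := by
    have h1 : 4 * B / τ < z := by linarith
    rw [div_lt_iff₀ hτ] at h1
    rw [mul_one_div, div_le_iff₀ hz0]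
    linarith
  obtain ⟨D0, hD0⟩ := exists_nat_gt (4 * (A + B * ((1 + 0) * z)) / τ + 1)
  have hD01 : (1 : ℝ) < D0 := by
    have : 0 ≤ 4 * (A + B * ((1 + 0) * z)) / τ := by positivity
    linarith
  refine ⟨D0, τ / (4 * (2 + B)), by exact_mod_cast hD01.le, by positivity, ?_⟩
  intro D x δ h c hD0D hδ hgood hcs hx hDδ hconc k hk
  obtain ⟨η, hηdef⟩ : ∃ η : ℝ, η = τ / (4 * (2 + B)) := ⟨_, rfl⟩
  rw [← hηdef] at hDδ hconc
  have hc : ∀ i, |c i| ≤ 1 := fun i => by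
    rcases hcs i with h1 | h1 <;> rw [h1] <;> simp
  have hη : 0 < η := by rw [hηdef]; positivity
  have hη2 : (2 + B) * η ≤ τ / 4 := by
    rw [hηdef]
    have : (2 + B) ≠ 0 := by positivity
    field_simp
    linarith
  have hx' : (0 : ℝ) < x := by exact_mod_cast hx
  have hDr : (D0 : ℝ) ≤ D := by exact_mod_cast hD0D
  have hD1 : (1 : ℝ) ≤ D := by linarith
  have hD' : (0 : ℝ) < D := by linarith
  have hDn : 1 ≤ D := by exact_mod_cast hD1
  have hABD : A / D + B * ((1 + 0) * z / D) ≤ τ / 4 := by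
    have h1 : 4 * (A + B * ((1 + 0) * z)) / τ < D := by linarith
    rw [div_lt_iff₀ hτ] at h1
    have h2 : A / D + B * ((1 + 0) * z / D) = (A + B * ((1 + 0) * z)) / D := by
      field_simp
    rw [h2, div_le_iff₀ hD']
    linarith
  obtain ⟨S, hSdef⟩ : ∃ S : ℝ, S = c2 * D := ⟨_, rfl⟩
  rw [← hSdef] at hconc ⊢
  have hSD : S ≤ D := by
    rw [hSdef]
    nlinarith
  have hS : ρ * D ≤ S := by rw [hSdef, hρdef]
  have hρS : ρ ≤ S := le_trans (le_mul_of_one_le_right hρ.le hD1) hS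
  rcases Nat.eq_zero_or_pos k with hk0 | hk0
  · subst hk0
    have e1 : (∑ n ∈ Icc 1 x, (ss D h c n / Real.sqrt S) ^ 0) / x - gm 0 = 0 := by
      rw [gm_zero]
      simp only [pow_zero, Finset.sum_const, Nat.card_Icc, Nat.add_sub_cancel, nsmul_eq_mul,
        mul_one]
      rw [div_self hx'.ne', sub_self]
    rw [e1, abs_zero]
    positivity
  have hK1 : 1 ≤ K0 := by omega
  have hKr : (0 : ℝ) < K0 := by exact_mod_cast hK1
  have hτK : τ / ρ ^ K0 ≤ 1 / K0 := by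
    have h1 : τ / ρ ^ K0 = 1 / (K0 + 1) := by
      rw [hτdef]
      have : ρ ^ K0 ≠ 0 := by positivity
      field_simp
    rw [h1]
    exact one_div_le_one_div_of_le hKr (by linarith)
  have hmom : |∑ n ∈ Icc 1 x, (ss D h c n ^ k - aw D h c k n)| ≤ 2 * η * x := by
    refine (gen hgood hδ k hk c hc).trans ?_
    have h1 : (D : ℝ) ^ k ≤ (D : ℝ) ^ K0 := pow_le_pow_right₀ hD1 hk
    have h2 : (D : ℝ) ^ k * δ ≤ (D : ℝ) ^ K0 * δ := mul_le_mul_of_nonneg_right h1 hδ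
    have h3 : 0 ≤ η * x := by positivity
    linarith
  rcases Nat.even_or_odd k with hev | hodd
  · obtain ⟨l, hl⟩ := hev
    have hkl : k = 2 * l := by omega
    subst hkl
    have hlK : l ≤ K0 := by omega
    have hl1 : 1 ≤ l := by omega
    have h2 : ∀ n, |aw D h c (2 * l) n - gm (2 * l) * NS D h n ^ l| ≤ Cl l * (D : ℝ) ^ l / D := by
      intro n
      have h3 := hCl l (range D) (fun v => c v * (ArithmeticFunction.moebius (n + h v) : ℝ))
        (fun v => by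
          have h4 : |((ArithmeticFunction.moebius (n + h v) : ℤ) : ℝ)| ≤ 1 := by
            exact_mod_cast ArithmeticFunction.abs_moebius_le_one
          rw [abs_mul]
          have h5 := hc v
          have h6 := abs_nonneg (c v)
          have h7 := abs_nonneg ((ArithmeticFunction.moebius (n + h v) : ℤ) : ℝ)
          nlinarith) D hDn (by simp)
      have h8 : NS D h n = ∑ v ∈ range D,
          (c v * (ArithmeticFunction.moebius (n + h v) : ℝ)) ^ 2 := by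
        unfold NS
        refine Finset.sum_congr rfl fun v _ => ?_
        rw [mul_pow]
        have h9 : c v ^ 2 = 1 := by
          rcases hcs v with h9 | h9 <;> rw [h9] <;> norm_num
        rw [h9, one_mul]
      rw [h8]
      exact h3
    have h3 : ∑ n ∈ Icc 1 x, |NS D h n - S| ≤
        1 * (x * ((1 + 0) * z + D / z) + D * (η * x)) := by
      refine hconc.trans ?_
      have h4 : 0 ≤ (x : ℝ) * ((1 + 0) * z + D / z) := by positivity
      linarith
    have hfin := even_bound (V := 0) (z := z) (ρ := ρ) (C0 := 1) (Cl := Cl l) (η := η) (S := S)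
      (G := gm (2 * l)) (ss D h c) (aw D h c (2 * l)) (NS D h) hx hDn hl1
      (by exact_mod_cast hz1.le) le_rfl hρ hρ1 zero_le_one (hCl0 l) hη.le (gm_nonneg _) hS hSD
      (NS_nonneg D h) (NS_le D h) hmom h2 h3
    refine le_trans hfin ?_
    have hE : 2 * η + Cl l / D + gm (2 * l) * l * 1 * ((1 + 0) * z / D + 1 / z + η) ≤ τ := by
      have g1 : Cl l / D ≤ A / D := div_le_div_of_nonneg_right (hAl l hlK) hD'.le
      have g2 : gm (2 * l) * l * 1 * ((1 + 0) * z / D + 1 / z + η) ≤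
          B * ((1 + 0) * z / D + 1 / z + η) :=
        mul_le_mul_of_nonneg_right (hBl l hlK) (by positivity)
      have g3 : B * ((1 + 0) * z / D + 1 / z + η) =
          B * ((1 + 0) * z / D) + B * (1 / z) + B * η := by ring
      have g4 : (2 + B) * η = 2 * η + B * η := by ring
      linarith
    have hρl : ρ ^ K0 ≤ ρ ^ l := pow_le_pow_of_le_one hρ.le hρ1 hlK
    calc (2 * η + Cl l / D + gm (2 * l) * l * 1 * ((1 + 0) * z / D + 1 / z + η)) / ρ ^ l
        ≤ τ / ρ ^ l := div_le_div_of_nonneg_right hE (by positivity)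
      _ ≤ τ / ρ ^ K0 := div_le_div_of_nonneg_left hτ.le (by positivity) hρl
      _ ≤ 1 / K0 := hτK
  · have hav : ∀ n, aw D h c k n = 0 := fun n => Rm_odd hodd _ _
    have hmom' : |∑ n ∈ Icc 1 x, ss D h c n ^ k| ≤ 2 * η * x := by
      have e1 : ∑ n ∈ Icc 1 x, ss D h c n ^ k = ∑ n ∈ Icc 1 x, (ss D h c n ^ k - aw D h c k n) :=
        Finset.sum_congr rfl fun n _ => by rw [hav n, sub_zero]
      rw [e1]
      exact hmom
    rw [gm_odd hodd, sub_zero]
    refine le_trans (odd_bound (ρ := ρ) (η := η) (S := S) (ss D h c) hx hρ hρ1 hη.le hρS hmom') ?_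
    have h2η : 2 * η ≤ τ := by
      have : 0 ≤ B * η := by positivity
      have g4 : (2 + B) * η = 2 * η + B * η := by ring
      linarith
    have hρl : ρ ^ K0 ≤ ρ ^ k := pow_le_pow_of_le_one hρ.le hρ1 hk
    calc 2 * η / ρ ^ k ≤ τ / ρ ^ k := div_le_div_of_nonneg_right h2η (by positivity)
      _ ≤ τ / ρ ^ K0 := div_le_div_of_nonneg_left hτ.le (by positivity) hρl
      _ ≤ 1 / K0 := hτK

end LawSAux

open LawSAux in
theorem law_s (δ₀ : ℝ) (hδ₀ : 0 < δ₀) : ∃ (K0 D0 : ℕ) (η : ℝ), 1 ≤ D0 ∧ 0 < η ∧ ∀ (D x : ℕ) (δ : ℝ) (h : ℕ → ℕ) (c : ℕ → ℝ), D0 ≤ D → 0 ≤ δ →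
    GoodS D K0 x δ h → (∀ i, c i = 1 ∨ c i = -1) → 1 ≤ x → (D : ℝ) ^ K0 * δ ≤ η * x →
    ∑ n ∈ Icc 1 x, |∑ i ∈ range D, (ArithmeticFunction.moebius (n + h i) : ℝ) ^ 2 - c2 * D| ≤ η * D * x →
    ∀ t : ℝ, |(((Icc 1 x).filter (fun n => ∑ i ∈ range D, c i * (ArithmeticFunction.moebius (n + h i) : ℝ) ≤
      t * Real.sqrt (c2 * D))).card : ℝ) / x - cdf (gaussianReal 0 1) t| ≤ δ₀ := by
  obtain ⟨K0, hK1, hlaw⟩ := Pool.Agent.MCP.d_law δ₀ hδ₀
  obtain ⟨D0, η, hD0, hη, hmom⟩ := mom_s K0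
  refine ⟨K0, D0, η, hD0, hη, ?_⟩
  intro D x δ h c hD hδ hgood hc hx hDδ hconc t
  have h1 := hlaw x (fun n => ss D h c n / Real.sqrt (c2 * D)) hx
    (hmom D x δ h c hD hδ hgood hc hx hDδ hconc) t
  have hD1 : (1 : ℝ) ≤ D := by exact_mod_cast hD0.trans hD
  have hs : 0 < Real.sqrt (c2 * D) := Real.sqrt_pos.2 (mul_pos c2_pos (by linarith))
  have h2 : (Icc 1 x).filter (fun n => ss D h c n / Real.sqrt (c2 * D) ≤ t) =
      (Icc 1 x).filter (fun n => ∑ i ∈ range D, c i * (ArithmeticFunction.moebius (n + h i) : ℝ) ≤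
        t * Real.sqrt (c2 * D)) := by
    refine Finset.filter_congr fun n _ => ?_
    rw [div_le_iff₀ hs]
    rfl
  rw [h2] at h1
  exact h1

end Pool.Agent.MS
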