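import Pool.Agent.Lib.MS.ExcS
import Pool.Agent.Lib.MS.ConS
import Pool.Agent.Lib.MS.LawS

/-!
# Module FinS: the normal law for almost all vectors of shifts

PROOF. `law_s δ₀` gives `K0, D1, η`; `con_s` gives `C`. `exc_s K0 K A ε` with `A = K K0 + 2`: `E1`, `|E1| ≤ H^D/L^A ≤ (δ₀/2) H^D`, outside `D^K0 x/L^A ≤ x/L² ≤ η x`. Let `E2` = the set of the `h ∈ [1,H]^D` with `∑_{n ≤ x} |∑_i μ(n + h i)² - c2 D| > η D x`: by Markov and `con_s`
`|E2| η D x ≤ C H^D (x (√D + D/z + D z/H) + D √x)`, i.e. `|E2| ≤ H^D (C/η) (1/√D + 1/z + z/H + 1/√x) ≤ (δ₀/2) H^D`, if first `z`, then `D0` are chosen large (depending on `δ₀` only) and `x` is large (`H ≥ x^(1/6) → ∞`).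
`E = E1 ∪ E2`. For the rest apply `law_s` with `h := exv h` (`exv_val`; `∑ i ∈ range D` versus `∑ i : Fin D`: `Finset.sum_range`).
-/

set_option autoImplicit false

open Finset Filter ProbabilityTheory

namespace Pool.Agent.MS

open Pool.Agent.P4f18df

namespace FinSAux

theorem e2_bound {C η τ N : ℝ} {D z H x : ℝ} (hC : 1 ≤ C) (hη : 0 < η) (hτ : 0 < τ) (hN : 0 ≤ N)
    (hD : 0 < D) (hz : 0 < z) (hH : 0 < H) (hx : 0 < x) (h1 : 1 / τ ≤ Real.sqrt D) (h2 : 1 / τ ≤ z)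
    (h3 : z / τ ≤ H) (h4 : 1 / τ ≤ Real.sqrt x) {e : ℝ}
    (he : e * (η * D * x) ≤ C * N * (x * (Real.sqrt D + D / z + D * z / H) + D * Real.sqrt x)) :
    e ≤ (C / η * (4 * τ)) * N := by
  have hsD : 0 < Real.sqrt D := Real.sqrt_pos.2 hD
  have hsx : 0 < Real.sqrt x := Real.sqrt_pos.2 hx
  have a1 : Real.sqrt D ≤ τ * D := by
    have : 1 ≤ τ * Real.sqrt D := by
      rw [div_le_iff₀ hτ] at h1
      linarith
    calc Real.sqrt D = 1 * Real.sqrt D := (one_mul _).symm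
      _ ≤ (τ * Real.sqrt D) * Real.sqrt D := mul_le_mul_of_nonneg_right this hsD.le
      _ = τ * D := by rw [mul_assoc, Real.mul_self_sqrt hD.le]
  have a2 : D / z ≤ τ * D := by
    rw [div_le_iff₀ hz]
    rw [div_le_iff₀ hτ] at h2
    nlinarith
  have a3 : D * z / H ≤ τ * D := by
    rw [div_le_iff₀ hH]
    rw [div_le_iff₀ hτ] at h3
    nlinarith
  have a4 : Real.sqrt x ≤ τ * x := by
    have : 1 ≤ τ * Real.sqrt x := by
      rw [div_le_iff₀ hτ] at h4
      linarith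
    calc Real.sqrt x = 1 * Real.sqrt x := (one_mul _).symm
      _ ≤ (τ * Real.sqrt x) * Real.sqrt x := mul_le_mul_of_nonneg_right this hsx.le
      _ = τ * x := by rw [mul_assoc, Real.mul_self_sqrt hx.le]
  have hDx : 0 < D * x := mul_pos hD hx
  have b1 : x * (Real.sqrt D + D / z + D * z / H) + D * Real.sqrt x ≤ 4 * τ * (D * x) := by
    have c1 : x * (Real.sqrt D + D / z + D * z / H) ≤ x * (3 * (τ * D)) :=
      mul_le_mul_of_nonneg_left (by linarith) hx.le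
    have c2 : D * Real.sqrt x ≤ D * (τ * x) := mul_le_mul_of_nonneg_left a4 hD.le
    calc _ ≤ x * (3 * (τ * D)) + D * (τ * x) := add_le_add c1 c2
      _ = 4 * τ * (D * x) := by ring
  have b2 : e * (η * D * x) ≤ C * N * (4 * τ * (D * x)) :=
    he.trans (mul_le_mul_of_nonneg_left b1 (mul_nonneg (by linarith) hN))
  have b3 : (e * η) * (D * x) ≤ (C * N * (4 * τ)) * (D * x) := by
    calc (e * η) * (D * x) = e * (η * D * x) := by ring
      _ ≤ _ := b2
      _ = _ := by ring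
  have b4 := le_of_mul_le_mul_right b3 hDx
  calc e = (e * η) / η := by field_simp
    _ ≤ (C * N * (4 * τ)) / η := div_le_div_of_nonneg_right b4 hη.le
    _ = _ := by ring

theorem markov {D H : ℕ} (F : (Fin D → ℕ) → ℝ) (hF : ∀ h, 0 ≤ F h) (T B : ℝ)
    (h : ∑ h ∈ Fintype.piFinset (fun _ : Fin D => Icc 1 H), F h ≤ B) :
    ((((Fintype.piFinset (fun _ : Fin D => Icc 1 H)).filter (fun h => T < F h)).card : ℕ) : ℝ) * T ≤ B := by
  classical
  have h1 : ∑ h ∈ (Fintype.piFinset (fun _ : Fin D => Icc 1 H)).filter (fun h => T < F h), T ≤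
      ∑ h ∈ (Fintype.piFinset (fun _ : Fin D => Icc 1 H)).filter (fun h => T < F h), F h := by
    refine Finset.sum_le_sum fun h hh => ?_
    exact (Finset.mem_filter.1 hh).2.le
  have h2 : ∑ h ∈ (Fintype.piFinset (fun _ : Fin D => Icc 1 H)).filter (fun h => T < F h), F h ≤
      ∑ h ∈ Fintype.piFinset (fun _ : Fin D => Icc 1 H), F h :=
    Finset.sum_le_sum_of_subset_of_nonneg (Finset.filter_subset _ _) fun h _ _ => hF h
  rw [Finset.sum_const, nsmul_eq_mul] at h1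
  linarith

/-- the extension of a sign vector by ones -/
def exv2 {D : ℕ} (c : Fin D → ℝ) (i : ℕ) : ℝ := if hi : i < D then c ⟨i, hi⟩ else 1

theorem exv2_val {D : ℕ} (c : Fin D → ℝ) (i : Fin D) : exv2 c i.val = c i := by
  rw [exv2, dif_pos i.isLt]

theorem exv2_pm {D : ℕ} (c : Fin D → ℝ) (hc : ∀ i, c i = 1 ∨ c i = -1) (i : ℕ) :
    exv2 c i = 1 ∨ exv2 c i = -1 := by
  rw [exv2]
  split_ifs with hi
  · exact hc _
  · exact Or.inl rfl

end FinSAux

open FinSAux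

theorem fin_s (δ₀ : ℝ) (hδ₀ : 0 < δ₀) : ∃ D0 : ℕ, 1 ≤ D0 ∧ ∀ (K : ℕ) (ε : ℝ), 0 < ε → ∀ᶠ x : ℕ in atTop, ∀ D H : ℕ, D0 ≤ D →
    (D : ℝ) ≤ Real.log x ^ K → (x : ℝ) ^ (1 / 6 + ε) ≤ H → H ≤ x →
    ∃ E : Finset (Fin D → ℕ), (E.card : ℝ) ≤ δ₀ * (H : ℝ) ^ D ∧ ∀ h : Fin D → ℕ, (∀ i, 1 ≤ h i ∧ h i ≤ H) → h ∉ E →
      ∀ c : Fin D → ℝ, (∀ i, c i = 1 ∨ c i = -1) → ∀ t : ℝ,
        |(((Icc 1 x).filter (fun n => ∑ i : Fin D, c i * (ArithmeticFunction.moebius (n + h i) : ℝ) ≤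
          t * Real.sqrt (c2 * D))).card : ℝ) / x - cdf (gaussianReal 0 1) t| ≤ δ₀ := by
  classical
  obtain ⟨K0, D1, η, hD1, hη, law⟩ := law_s δ₀ hδ₀
  obtain ⟨C, hC, con⟩ := con_s
  set τ : ℝ := δ₀ * η / (8 * C) with hτd
  have hC0 : 0 < C := by linarith
  have hτ : 0 < τ := by positivity
  set z : ℕ := ⌈1 / τ⌉₊ with hz
  have hz1 : 1 / τ ≤ (z : ℝ) := Nat.le_ceil _
  have hz0 : 1 ≤ z := by
    have : (0 : ℝ) < z := lt_of_lt_of_le (by positivity) hz1
    exact_mod_cast this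
  refine ⟨max D1 ⌈(1 / τ) ^ 2⌉₊, le_max_of_le_left hD1, fun K ε hε => ?_⟩
  have hlog : Tendsto (fun x : ℕ => Real.log (x : ℝ)) atTop atTop :=
    Real.tendsto_log_atTop.comp tendsto_natCast_atTop_atTop
  have hpow : Tendsto (fun x : ℕ => (x : ℝ) ^ ((1 : ℝ) / 6 + ε)) atTop atTop :=
    (tendsto_rpow_atTop (by positivity)).comp tendsto_natCast_atTop_atTop
  have hsq : Tendsto (fun x : ℕ => Real.sqrt (x : ℝ)) atTop atTop :=
    Real.tendsto_sqrt_atTop.comp tendsto_natCast_atTop_atTop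
  filter_upwards [exc_s K0 K (K * K0 + 2) ε hε, hlog.eventually_ge_atTop (1 : ℝ),
    hlog.eventually_ge_atTop (2 / δ₀), hlog.eventually_ge_atTop (1 / η),
    hpow.eventually_ge_atTop ((z : ℝ) / τ), hpow.eventually_ge_atTop (1 : ℝ), hsq.eventually_ge_atTop (1 / τ),
    eventually_ge_atTop 1] with x hexc hl1 hl2 hl3 hp1 hp2 hs hx1 D H hD hDK hH hHx
  have hx0 : (0 : ℝ) < x := by exact_mod_cast hx1
  have hD1' : D1 ≤ D := (le_max_left _ _).trans hD
  have hDpos : 1 ≤ D := hD1.trans hD1'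
  have hD0 : (0 : ℝ) < D := by exact_mod_cast hDpos
  have hH1 : 1 ≤ H := by
    have : (1 : ℝ) ≤ H := hp2.trans hH
    exact_mod_cast this
  have hH0 : (0 : ℝ) < H := by exact_mod_cast hH1
  obtain ⟨E1, hE1, hgood⟩ := hexc D H hDK hH hHx
  set L := Real.log (x : ℝ) with hL
  have hL0 : 0 < L := by linarith
  have hLA : L ≤ L ^ (K * K0 + 2) := le_self_pow₀ hl1 (by omega)
  set F : (Fin D → ℕ) → ℝ := fun h => ∑ n ∈ Icc 1 x,
      |∑ i : Fin D, (ArithmeticFunction.moebius (n + h i) : ℝ) ^ 2 - c2 * D| with hFd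
  have hF0 : ∀ h, 0 ≤ F h := fun h => Finset.sum_nonneg fun n _ => abs_nonneg _
  set E2 := (Fintype.piFinset (fun _ : Fin D => Icc 1 H)).filter (fun h => η * D * x < F h) with hE2
  have hE2c : (E2.card : ℝ) * (η * D * x) ≤
      C * (H : ℝ) ^ D * (x * (Real.sqrt D + D / z + D * z / H) + D * Real.sqrt x) :=
    markov F hF0 _ _ (con z D H x hz0 hH1 hHx)
  have hsD : 1 / τ ≤ Real.sqrt D := by
    apply Real.le_sqrt_of_sq_le
    have h1 : (1 / τ) ^ 2 ≤ (⌈(1 / τ) ^ 2⌉₊ : ℝ) := Nat.le_ceil _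
    have h2 : (⌈(1 / τ) ^ 2⌉₊ : ℝ) ≤ D := by exact_mod_cast (le_max_right _ _).trans hD
    linarith
  have hz0' : (0 : ℝ) < z := by exact_mod_cast hz0
  have hb := e2_bound (N := (H : ℝ) ^ D) hC hη hτ (by positivity) hD0 hz0' hH0 hx0 hsD hz1
    (hp1.trans hH) hs hE2c
  have hb2 : C / η * (4 * τ) = δ₀ / 2 := by
    rw [hτd]
    field_simp
    ring
  rw [hb2] at hb
  refine ⟨E1 ∪ E2, ?_, ?_⟩
  · have h1 : ((E1 ∪ E2).card : ℝ) ≤ E1.card + E2.card := by exact_mod_cast Finset.card_union_le _ _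
    have h2 : (H : ℝ) ^ D / L ^ (K * K0 + 2) ≤ δ₀ / 2 * (H : ℝ) ^ D := by
      rw [div_le_iff₀ (by positivity)]
      have h3 : 2 / δ₀ ≤ L ^ (K * K0 + 2) := hl2.trans hLA
      have h4 : 1 ≤ δ₀ / 2 * L ^ (K * K0 + 2) := by
        rw [div_le_iff₀ hδ₀] at h3
        linarith
      have h5 : (0 : ℝ) ≤ (H : ℝ) ^ D := by positivity
      nlinarith
    linarith
  · intro h hh hE c hc t
    have hE1' : h ∉ E1 := fun h0 => hE (Finset.mem_union_left _ h0)
    have hE2' : h ∉ E2 := fun h0 => hE (Finset.mem_union_right _ h0)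
    have hFh : F h ≤ η * D * x := by
      by_contra h0
      exact hE2' (Finset.mem_filter.2 ⟨Fintype.mem_piFinset.2 fun i => Finset.mem_Icc.2 (hh i), not_le.1 h0⟩)
    have hDL : (D : ℝ) ^ K0 * (x / L ^ (K * K0 + 2)) ≤ η * x := by
      have h1 : (D : ℝ) ^ K0 ≤ L ^ (K * K0) := by
        rw [pow_mul]
        exact pow_le_pow_left₀ hD0.le hDK K0
      have h2 : 1 ≤ η * L ^ 2 := by
        have h3 : 1 ≤ η * L := by
          rw [div_le_iff₀ hη] at hl3
          linarith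
        have h4 : L ≤ L ^ 2 := le_self_pow₀ hl1 (by norm_num)
        nlinarith
      calc (D : ℝ) ^ K0 * (x / L ^ (K * K0 + 2)) ≤ L ^ (K * K0) * (x / L ^ (K * K0 + 2)) :=
            mul_le_mul_of_nonneg_right h1 (by positivity)
        _ = x / L ^ 2 := by
            rw [pow_add]
            field_simp
        _ ≤ η * x := by
            rw [div_le_iff₀ (by positivity)]
            nlinarith
    have key := law D x (x / L ^ (K * K0 + 2)) (exv h) (exv2 c) hD1' (by positivity) (hgood h hh hE1')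
      (exv2_pm c hc) hx1 hDL (by
        have e1 : ∀ n, ∑ i ∈ range D, (ArithmeticFunction.moebius (n + exv h i) : ℝ) ^ 2 =
            ∑ i : Fin D, (ArithmeticFunction.moebius (n + h i) : ℝ) ^ 2 := by
          intro n
          rw [Finset.sum_range]
          exact Finset.sum_congr rfl fun i _ => by rw [exv_val]
        simp only [e1]
        exact hFh) t
    have e2 : ∀ n, ∑ i ∈ range D, exv2 c i * (ArithmeticFunction.moebius (n + exv h i) : ℝ) =
        ∑ i : Fin D, c i * (ArithmeticFunction.moebius (n + h i) : ℝ) := by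
      intro n
      rw [Finset.sum_range]
      exact Finset.sum_congr rfl fun i _ => by rw [exv_val, exv2_val]
    simp only [e2] at key
    exact key

end Pool.Agent.MS
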